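import Mathlib

set_option autoImplicit false

namespace Pool.Agent.Results.MP_462cdc_an.NotStrictlyConvex

open Metric Filter Topology

/-- nearest points of `x` in `G` -/
def nearest {E : Type} [NormedAddCommGroup E] (G : Set E) (x : E) : Set E :=
  {g | g ∈ G ∧ ‖x - g‖ = infDist x G}

/-- the uniqueness set: points with at most one nearest point in `G` -/
def uniq {E : Type} [NormedAddCommGroup E] (G : Set E) : Set E :=
  {x | (nearest G x).Subsingleton}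

theorem gdelta {E : Type} [NormedAddCommGroup E] (G : Set E) (hG : IsCompact G) :
    IsGδ (uniq G) := by
  haveI : CompactSpace G := isCompact_iff_compactSpace.mp hG
  let C : ℕ → Set (E × (G × G)) := fun n => {p | ‖p.1 - p.2.1‖ = infDist p.1 G ∧
    ‖p.1 - p.2.2‖ = infDist p.1 G ∧ 1 / ((n : ℝ) + 1) ≤ ‖(p.2.1 : E) - p.2.2‖}
  have hC : ∀ n, IsClosed (C n) := by
    intro n
    have hd : Continuous fun p : E × (G × G) => infDist p.1 G :=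
      (continuous_infDist_pt G).comp continuous_fst
    have c1 : Continuous fun p : E × (G × G) => ‖p.1 - p.2.1‖ := by fun_prop
    have c2 : Continuous fun p : E × (G × G) => ‖p.1 - p.2.2‖ := by fun_prop
    have c3 : Continuous fun p : E × (G × G) => ‖(p.2.1 : E) - p.2.2‖ := by fun_prop
    exact (isClosed_eq c1 hd).inter ((isClosed_eq c2 hd).inter (isClosed_le continuous_const c3))
  have h : uniq G = ⋂ n, (Prod.fst '' C n)ᶜ := by
    ext x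
    simp only [Set.mem_iInter, Set.mem_compl_iff]
    constructor
    · rintro hx n ⟨⟨y, a, b⟩, ⟨h1, h2, h3⟩, rfl⟩
      have : (a : E) = b := hx ⟨a.2, h1⟩ ⟨b.2, h2⟩
      simp only [this, sub_self, norm_zero] at h3
      have : (0 : ℝ) < 1 / ((n : ℝ) + 1) := by positivity
      linarith
    · intro hx a ha b hb
      by_contra hne
      obtain ⟨n, hn⟩ := exists_nat_one_div_lt (norm_pos_iff.mpr (sub_ne_zero.mpr hne))
      exact hx n ⟨⟨x, ⟨a, ha.1⟩, ⟨b, hb.1⟩⟩, ⟨ha.2, hb.2, hn.le⟩, rfl⟩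
  rw [h]
  exact IsGδ.iInter fun n => (isClosedMap_fst_of_compactSpace _ (hC n)).isOpen_compl.isGδ

variable (𝕜 : Type) [RCLike 𝕜]

abbrev K := lp (fun _ : ℕ => 𝕜) 2

noncomputable def e (n : ℕ) : K 𝕜 := lp.single 2 n (1 : 𝕜)

theorem norm_e (n : ℕ) : ‖e 𝕜 n‖ = 1 := by
  rw [e, lp.norm_single (by norm_num)]; simp

noncomputable def P : K 𝕜 →L[𝕜] K 𝕜 :=
  ContinuousLinearMap.id 𝕜 _ - (innerSL 𝕜 (e 𝕜 0)).smulRight (e 𝕜 0)

theorem P_e0 : P 𝕜 (e 𝕜 0) = 0 := by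
  simp [P, inner_self_eq_norm_sq_to_K, norm_e]

theorem P_e (n : ℕ) : P 𝕜 (e 𝕜 (n + 1)) = e 𝕜 (n + 1) := by
  have : inner 𝕜 (e 𝕜 0) (e 𝕜 (n + 1)) = 0 := by
    rw [e, lp.inner_single_left]; simp [e, lp.single_apply]
  simp [P, this]

noncomputable def E : Submodule 𝕜 (WithLp 1 (K 𝕜 × K 𝕜)) :=
  LinearMap.ker ((P 𝕜).comp (WithLp.fstL 1 𝕜 _ _ - WithLp.sndL 1 𝕜 _ _)).toLinearMap

theorem mem_E (v : WithLp 1 (K 𝕜 × K 𝕜)) : v ∈ E 𝕜 ↔ P 𝕜 v.fst = P 𝕜 v.snd := by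
  simp [E, sub_eq_zero]

theorem norm_E (v : E 𝕜) : ‖v‖ = ‖v.1.fst‖ + ‖v.1.snd‖ := by
  rw [← WithLp.prod_norm_eq_of_L1]; rfl

noncomputable def pr : E 𝕜 →L[𝕜] K 𝕜 := (P 𝕜).comp ((WithLp.fstL 1 𝕜 _ _).comp (E 𝕜).subtypeL)

theorem eqK (a b : K 𝕜) (h : ‖a + b‖ = ‖a‖ + ‖b‖) : (‖b‖ : 𝕜) • a = (‖a‖ : 𝕜) • b := by
  have h1 := norm_add_sq (𝕜 := 𝕜) a b
  rw [h] at h1
  have h2 := norm_sub_sq (𝕜 := 𝕜) ((‖b‖ : 𝕜) • a) ((‖a‖ : 𝕜) • b)
  rw [inner_smul_left, inner_smul_right, norm_smul, norm_smul, RCLike.conj_ofReal,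
    RCLike.re_ofReal_mul, RCLike.re_ofReal_mul, RCLike.norm_ofReal, RCLike.norm_ofReal,
    abs_norm, abs_norm] at h2
  have h3 : RCLike.re (inner 𝕜 a b) = ‖a‖ * ‖b‖ := by nlinarith
  rw [h3] at h2
  have h4 : ‖(‖b‖ : 𝕜) • a - (‖a‖ : 𝕜) • b‖ ^ 2 = 0 := by rw [h2]; ring
  exact sub_eq_zero.mp (norm_eq_zero.mp (pow_eq_zero_iff two_ne_zero |>.mp h4))

theorem eqE (u v : E 𝕜) (hu : pr 𝕜 u ≠ 0) (h : ‖u + v‖ = ‖u‖ + ‖v‖) :
    ∃ c : 𝕜, v = c • u ∧ ‖u + v‖ = ‖u‖ + ‖v‖ ∧ ∃ r : ℝ, 0 ≤ r ∧ c = r := by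
  have h0 := h
  rw [norm_E, norm_E, norm_E] at h
  have e1 : (u + v).1.fst = u.1.fst + v.1.fst := rfl
  have e2 : (u + v).1.snd = u.1.snd + v.1.snd := rfl
  rw [e1, e2] at h
  have t1 := norm_add_le u.1.fst v.1.fst
  have t2 := norm_add_le u.1.snd v.1.snd
  have q1 := eqK 𝕜 u.1.fst v.1.fst (by linarith)
  have q2 := eqK 𝕜 u.1.snd v.1.snd (by linarith)
  have hu1 : P 𝕜 u.1.fst ≠ 0 := hu
  have hu2 : P 𝕜 u.1.snd ≠ 0 := by rw [← (mem_E 𝕜 _).mp u.2]; exact hu1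
  have n1 : (‖u.1.fst‖ : 𝕜) ≠ 0 := by
    intro h'; apply hu1
    rw [norm_eq_zero.mp (RCLike.ofReal_eq_zero.mp h'), map_zero]
  have n2 : (‖u.1.snd‖ : 𝕜) ≠ 0 := by
    intro h'; apply hu2
    rw [norm_eq_zero.mp (RCLike.ofReal_eq_zero.mp h'), map_zero]
  have r1 : v.1.fst = ((‖v.1.fst‖ : 𝕜) / ‖u.1.fst‖) • u.1.fst := by
    rw [div_eq_inv_mul, mul_smul, q1, smul_smul, inv_mul_cancel₀ n1, one_smul]
  have r2 : v.1.snd = ((‖v.1.snd‖ : 𝕜) / ‖u.1.snd‖) • u.1.snd := by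
    rw [div_eq_inv_mul, mul_smul, q2, smul_smul, inv_mul_cancel₀ n2, one_smul]
  have hv := (mem_E 𝕜 _).mp v.2
  rw [r1, r2, map_smul, map_smul, ← (mem_E 𝕜 _).mp u.2] at hv
  have hc := smul_left_injective 𝕜 hu1 hv
  refine ⟨(‖v.1.fst‖ : 𝕜) / ‖u.1.fst‖, ?_, h0, ‖v.1.fst‖ / ‖u.1.fst‖, by positivity,
    by push_cast; rfl⟩
  apply Subtype.ext
  apply WithLp.ofLp_injective 1
  apply Prod.ext
  · exact r1
  · rw [hc]; exact r2

noncomputable def dg (n : ℕ) : E 𝕜 := ⟨WithLp.toLp 1 (e 𝕜 n, e 𝕜 n), (mem_E 𝕜 _).mpr rfl⟩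

theorem dense_good (G : Set (E 𝕜)) (hG : IsCompact G) : Dense {x | pr 𝕜 x ∉ pr 𝕜 '' G} := by
  rw [Metric.dense_iff]
  intro x r hr
  by_contra hcon
  have hall : ∀ n : ℕ, pr 𝕜 x + ((r / 3 : ℝ) : 𝕜) • e 𝕜 (n + 1) ∈ pr 𝕜 '' G := by
    intro n
    by_contra h
    apply hcon
    refine ⟨x + ((r / 3 : ℝ) : 𝕜) • dg 𝕜 (n + 1), ?_, ?_⟩
    · rw [mem_ball_iff_norm, add_sub_cancel_left, norm_smul, norm_E, RCLike.norm_ofReal,
        abs_of_pos (by positivity)]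
      show r / 3 * (‖e 𝕜 (n + 1)‖ + ‖e 𝕜 (n + 1)‖) < r
      rw [norm_e]; linarith
    · show pr 𝕜 _ ∉ _
      rw [map_add, map_smul]
      have : pr 𝕜 (dg 𝕜 (n + 1)) = e 𝕜 (n + 1) := P_e 𝕜 n
      rwa [this]
  obtain ⟨a, -, φ, hφ, hlim⟩ := (hG.image (pr 𝕜).continuous).tendsto_subseq hall
  obtain ⟨N, hN⟩ := Metric.cauchySeq_iff.mp hlim.cauchySeq (r / 3) (by positivity)
  have h1 := hN N le_rfl (N + 1) (by omega)
  simp only [Function.comp, dist_eq_norm, add_sub_add_left_eq_sub, ← smul_sub, norm_smul,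
    RCLike.norm_ofReal] at h1
  have h2 := lp.norm_apply_le_norm (p := 2) (by norm_num)
    (e 𝕜 (φ N + 1) - e 𝕜 (φ (N + 1) + 1)) (φ N + 1)
  have h3 : φ N ≠ φ (N + 1) := (hφ (Nat.lt_succ_self N)).ne
  have h4 : (e 𝕜 (φ N + 1) - e 𝕜 (φ (N + 1) + 1) : K 𝕜) (φ N + 1) = 1 := by
    simp [e, lp.single_apply, h3]
  rw [h4, norm_one] at h2
  rw [abs_of_pos (by positivity)] at h1
  nlinarith

theorem dense_uniq (G : Set (E 𝕜)) (hG : IsCompact G) : Dense (uniq G) := by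
  rcases G.eq_empty_or_nonempty with rfl | hne
  · have : uniq (∅ : Set (E 𝕜)) = Set.univ := by
      ext x; simp only [Set.mem_univ, iff_true]; intro a ha; exact ha.1.elim
    rw [this]; exact dense_univ
  refine Dense.of_closure ((dense_good 𝕜 G hG).mono ?_)
  intro x hx
  obtain ⟨g, hg, hxg⟩ := hG.exists_infDist_eq_dist hne x
  rw [dist_eq_norm] at hxg
  have hpr : pr 𝕜 (x - g) ≠ 0 := by
    intro h
    rw [map_sub, sub_eq_zero] at h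
    exact hx ⟨g, hg, h.symm⟩
  have hd : 0 < ‖x - g‖ := by
    rw [norm_pos_iff]; intro h; apply hpr; rw [h, map_zero]
  rw [Metric.mem_closure_iff]
  intro ε hε
  obtain ⟨t, ht0, ht1, ht2⟩ : ∃ t : ℝ, 0 < t ∧ t < 1 ∧ t * ‖x - g‖ < ε := by
    refine ⟨min (1 / 2) (ε / (2 * ‖x - g‖)), by positivity,
      (min_le_left _ _).trans_lt (by norm_num), ?_⟩
    have : min (1 / 2) (ε / (2 * ‖x - g‖)) * ‖x - g‖ ≤ ε / (2 * ‖x - g‖) * ‖x - g‖ :=
      mul_le_mul_of_nonneg_right (min_le_right _ _) hd.le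
    have h2 : ε / (2 * ‖x - g‖) * ‖x - g‖ = ε / 2 := by field_simp
    linarith
  have hn1 : ‖(t : 𝕜) • (x - g)‖ = t * ‖x - g‖ := by
    rw [norm_smul, RCLike.norm_ofReal, abs_of_pos ht0]
  refine ⟨x - (t : 𝕜) • (x - g), ?_, by rw [dist_eq_norm, sub_sub_cancel, hn1]; exact ht2⟩
  have key : ∀ a ∈ nearest G (x - (t : 𝕜) • (x - g)), a = g := by
    intro a ha
    have h1 : ‖x - (t : 𝕜) • (x - g) - a‖ ≤ (1 - t) * ‖x - g‖ := by
      rw [ha.2]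
      refine (infDist_le_dist_of_mem hg).trans_eq ?_
      have : x - (t : 𝕜) • (x - g) - g = ((1 - t : ℝ) : 𝕜) • (x - g) := by
        push_cast; rw [sub_smul, one_smul]; abel
      rw [dist_eq_norm, this, norm_smul, RCLike.norm_ofReal, abs_of_pos (by linarith)]
    have h2 : ‖x - g‖ ≤ ‖x - a‖ := by
      rw [← hxg, ← dist_eq_norm]; exact infDist_le_dist_of_mem ha.1
    have h3 : x - a = (t : 𝕜) • (x - g) + (x - (t : 𝕜) • (x - g) - a) := by abel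
    have h4 := norm_add_le ((t : 𝕜) • (x - g)) (x - (t : 𝕜) • (x - g) - a)
    have ht : (t : 𝕜) ≠ 0 := by exact_mod_cast ht0.ne'
    obtain ⟨c, hc, -, r, hr, rfl⟩ := eqE 𝕜 ((t : 𝕜) • (x - g)) (x - (t : 𝕜) • (x - g) - a)
      (by rw [map_smul]; exact smul_ne_zero ht hpr) (by rw [← h3] at h4 ⊢; linarith)
    have h5 : ‖x - (t : 𝕜) • (x - g) - a‖ = (1 - t) * ‖x - g‖ := by
      rw [← h3] at h4; linarith
    rw [hc, norm_smul, hn1, RCLike.norm_ofReal, abs_of_nonneg hr] at h5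
    have h6 : r * t = 1 - t := by
      have : (r * t) * ‖x - g‖ = (1 - t) * ‖x - g‖ := by linarith
      exact mul_right_cancel₀ hd.ne' this
    have h7 : x - a = x - g := by
      rw [h3, hc, smul_smul, ← add_smul]
      have : (t : 𝕜) + r * t = 1 := by
        have : ((r * t : ℝ) : 𝕜) = ((1 - t : ℝ) : 𝕜) := by rw [h6]
        push_cast at this; rw [this]; ring
      rw [this, one_smul]
    exact sub_right_injective h7
  intro a ha b hb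
  rw [key a ha, key b hb]

theorem result :
    ∃ (X : Type) (_ : NormedAddCommGroup X) (_ : NormedSpace 𝕜 X), CompleteSpace X ∧
      (∃ x y : X, ‖x‖ = 1 ∧ ‖y‖ = 1 ∧ x ≠ y ∧ ‖x + y‖ = 2) ∧
      ∀ G : Set X, IsCompact G →
        Dense (uniq G) ∧ IsGδ (uniq G) ∧ ¬ IsMeagre (uniq G) := by
  have hcl : IsClosed (E 𝕜 : Set (WithLp 1 (K 𝕜 × K 𝕜))) := ContinuousLinearMap.isClosed_ker _
  haveI : CompleteSpace (E 𝕜) := hcl.completeSpace_coe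
  refine ⟨E 𝕜, inferInstance, inferInstance, inferInstance, ?_, fun G hG => ?_⟩
  · refine ⟨⟨WithLp.toLp 1 (e 𝕜 0, 0), (mem_E 𝕜 _).mpr (by simp [P_e0])⟩,
      ⟨WithLp.toLp 1 (0, e 𝕜 0), (mem_E 𝕜 _).mpr (by simp [P_e0])⟩, ?_, ?_, ?_, ?_⟩
    · rw [norm_E]; simp [norm_e]
    · rw [norm_E]; simp [norm_e]
    · intro h
      have h1 : e 𝕜 0 = 0 := congrArg (fun v : E 𝕜 => v.1.fst) h
      have := norm_e 𝕜 0
      rw [h1, norm_zero] at this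
      exact zero_ne_one this
    · rw [norm_E]; simp [norm_e]; norm_num
  · have h1 := dense_uniq 𝕜 G hG
    have h2 := gdelta G hG
    refine ⟨h1, h2, fun hm => ?_⟩
    have h3 : uniq G ∈ residual (E 𝕜) := residual_of_dense_Gδ h2 h1
    have h4 := dense_of_mem_residual (Filter.inter_mem h3 hm)
    simpa using h4.nonempty

end Pool.Agent.Results.MP_462cdc_an.NotStrictlyConvex
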